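import Pool.Agent.R815.HLC.Final
import Pool.Agent.S12751

/-!
# Hereditarily locally connected separable metric spaces have dimension at most one
-/

set_option autoImplicit false

namespace Pool.Agent.Results.MP_a1dcbe_gt.DimLeOne

open Topology Set TopologicalSpace

/-- The dimension bound from a countable set whose complement satisfies `(R₂)`. -/
theorem of_locallyConnected (X : Type) [MetricSpace X] [SeparableSpace X]
    (hX : ∀ S : Set X, IsConnected S → LocallyConnectedSpace S) (hloc : LocallyConnectedSpace X) :
    HasSmallInductiveDimensionLE X 1 := by
  have : SecondCountableTopology X := UniformSpace.secondCountable_of_separable X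
  obtain ⟨C, hC, hB⟩ := Pool.Agent.R815.HLC.exists_countable (X := X) hX
  have h := Pool.Agent.S12751.result X C hC hB
  refine HasSmallInductiveDimensionLT.succ 1
    {U : Set X | IsOpen U ∧ HasSmallInductiveDimensionLT (frontier U) 1} ?_ (fun U hU => hU.2)
  apply isTopologicalBasis_of_isOpen_of_nhds
  · rintro U hU
    exact hU.1
  · intro x V hxV hV
    obtain ⟨U, hU, hxU, hUV, hfr⟩ := h x V hV hxV
    refine ⟨U, ⟨hU, ?_⟩, hxU, hUV⟩
    rw [hasSmallInductiveDimensionLT_one_iff]
    apply isTopologicalBasis_of_isOpen_of_nhds
    · rintro W hW
      exact hW.isOpen
    · intro y O hyO hO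
      obtain ⟨W, hW, hyW, hWO⟩ := hfr y O hO hyO
      exact ⟨W, hW, hyW, hWO⟩

/-- Let `X` be a separable metric space all of whose connected subsets are locally connected.
Then every connected subset of `X` (in particular `X` itself, if `X` is connected) has dimension
at most one; and so does `X` itself if `X` is locally connected. -/
theorem result (X : Type) [MetricSpace X] [SeparableSpace X]
    (hX : ∀ S : Set X, IsConnected S → LocallyConnectedSpace S) :
    (ConnectedSpace X ∨ LocallyConnectedSpace X → HasSmallInductiveDimensionLE X 1) ∧
      ∀ S : Set X, IsConnected S → HasSmallInductiveDimensionLE S 1 := by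
  have : SecondCountableTopology X := UniformSpace.secondCountable_of_separable X
  constructor
  · rintro (h | h)
    · apply of_locallyConnected X hX
      have h1 : LocallyConnectedSpace (univ : Set X) := hX univ isConnected_univ
      exact (Homeomorph.Set.univ X).symm.locallyConnectedSpace
    · exact of_locallyConnected X hX h
  · intro S hS
    apply of_locallyConnected S _ (hX S hS)
    intro T hT
    have h1 : IsConnected (Subtype.val '' T : Set X) := hT.image _ continuous_subtype_val.continuousOn
    have h2 : LocallyConnectedSpace (Subtype.val '' T : Set X) := hX _ h1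
    have e : T ≃ₜ (Subtype.val '' T : Set X) :=
      (IsEmbedding.subtypeVal.comp IsEmbedding.subtypeVal).toHomeomorph.trans
        (Homeomorph.setCongr (by
          ext z
          constructor
          · rintro ⟨w, rfl⟩
            exact ⟨w.1, w.2, rfl⟩
          · rintro ⟨w, hw, rfl⟩
            exact ⟨⟨w, hw⟩, rfl⟩))
    exact e.locallyConnectedSpace

end Pool.Agent.Results.MP_a1dcbe_gt.DimLeOne
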